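import Pool.Agent.Results.MP_70096d_gt.CompatibleFails

/-!
# Well-filtered dcpos with products which are not Scott `ω`-well-filtered

Every well-filtered dcpo `Z` is a component (an upper and lower subset) of a well-filtered dcpo `P`
for which the Scott topology of `P × Q` is not even `ω`-well-filtered, for all nonempty posets `Q`,
although `P × Q` is again a well-filtered dcpo (has a compatible well-filtered topology) whenever
`Q` is one. If `Z` has a compatible sober topology then so has `P`, and then `P × Q` has such a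
topology for every `Q` which has one.
-/

set_option autoImplicit false

open Set Topology

universe u v

namespace Pool.Agent.Results.MP_70096d_gt.OmegaWellFiltered

open Pool.Agent.Results.MP_70096d_gt.CompatibleFails

/-- A space is `ω`-well-filtered if, for every decreasing sequence of compact saturated sets and
every open set `U` containing the intersection of the sequence, some member of the sequence is
contained in `U`. A set is saturated if it is an intersection of open sets. -/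
def OmegaWF (X : Type u) [TopologicalSpace X] : Prop :=
  ∀ K : ℕ → Set X, Antitone K →
    (∀ n, IsCompact (K n) ∧ ∃ 𝒰 : Set (Set X), (∀ U ∈ 𝒰, IsOpen U) ∧ K n = ⋂₀ 𝒰) →
    ∀ U : Set X, IsOpen U → ⋂ n, K n ⊆ U → ∃ n, K n ⊆ U

/-- The topology `t` is compatible with the order: the closure of `{x}` is the set of all
`y ≤ x`. -/
def Compat {P : Type u} [PartialOrder P] (t : TopologicalSpace P) : Prop :=
  ∀ x : P, @closure P t {x} = Iic x

/-- A well-filtered space is `ω`-well-filtered. -/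
theorem wf_omega {X : Type u} [TopologicalSpace X] (h : WellFiltered X) : OmegaWF X := by
  intro K hK hc U hU hsub
  obtain ⟨_, ⟨n, rfl⟩, hn⟩ := h.2 (range K) (range_nonempty _) (by
    rintro _ ⟨n, rfl⟩ _ ⟨m, rfl⟩
    exact ⟨_, ⟨max n m, rfl⟩, hK (le_max_left _ _), hK (le_max_right _ _)⟩) (by
    rintro _ ⟨n, rfl⟩
    exact hc n) U hU (by rwa [sInter_range])
  exact ⟨n, hn⟩

section sum

variable {Z : Type u} {W : Type v}

theorem compat_t0 [PartialOrder Z] [t : TopologicalSpace Z] (h : Compat t) : T0Space Z := by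
  refine ⟨fun x y hxy => ?_⟩
  have h' := inseparable_iff_closure_eq.1 hxy
  rw [h x, h y] at h'
  exact Iic_injective h'

theorem compat_sum [PartialOrder Z] [PartialOrder W] [t : TopologicalSpace Z]
    [s : TopologicalSpace W] (ht : Compat t) (hs : Compat s) :
    Compat (inferInstance : TopologicalSpace (Z ⊕ W)) := by
  rintro (x | x)
  · rw [← image_singleton, IsClosedEmbedding.inl.closure_image_eq, ht x]
    ext (y | y)
    · simp
    · simp
  · rw [← image_singleton, IsClosedEmbedding.inr.closure_image_eq, hs x]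
    ext (y | y)
    · simp
    · simp

theorem dcpo_sum [PartialOrder Z] [PartialOrder W] (hZ : IsDcpo Z) (hW : IsDcpo W) :
    ∀ d : Set (Z ⊕ W), d.Nonempty → DirectedOn (· ≤ ·) d → ∃ x : Z ⊕ W, IsLUB d x := by
  rintro d ⟨(a | a), ha⟩ hd
  · have hd1 : ∀ z ∈ d, ∃ y, z = Sum.inl y := by
      intro z hz
      obtain ⟨w, hw, h1, h2⟩ := hd _ ha _ hz
      rcases w with w | w
      · rcases z with z | z
        · exact ⟨z, rfl⟩
        · exact absurd h2 Sum.not_inr_le_inl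
      · exact absurd h1 Sum.not_inl_le_inr
    obtain ⟨x, hx⟩ := hZ (Sum.inl ⁻¹' d) ⟨a, ha⟩ (by
      intro p hp q hq
      obtain ⟨w, hw, h1, h2⟩ := hd _ hp _ hq
      obtain ⟨y, rfl⟩ := hd1 w hw
      exact ⟨y, hw, Sum.inl_le_inl_iff.1 h1, Sum.inl_le_inl_iff.1 h2⟩)
    refine ⟨Sum.inl x, ?_, ?_⟩
    · intro z hz
      obtain ⟨y, rfl⟩ := hd1 z hz
      exact Sum.inl_le_inl_iff.2 (hx.1 hz)
    · intro z hz
      have h1 := hz ha
      rcases z with z | z
      · exact Sum.inl_le_inl_iff.2 (hx.2 fun y hy => Sum.inl_le_inl_iff.1 (hz hy))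
      · exact absurd h1 Sum.not_inl_le_inr
  · have hd1 : ∀ z ∈ d, ∃ y, z = Sum.inr y := by
      intro z hz
      obtain ⟨w, hw, h1, h2⟩ := hd _ ha _ hz
      rcases w with w | w
      · exact absurd h1 Sum.not_inr_le_inl
      · rcases z with z | z
        · exact absurd h2 Sum.not_inl_le_inr
        · exact ⟨z, rfl⟩
    obtain ⟨x, hx⟩ := hW (Sum.inr ⁻¹' d) ⟨a, ha⟩ (by
      intro p hp q hq
      obtain ⟨w, hw, h1, h2⟩ := hd _ hp _ hq
      obtain ⟨y, rfl⟩ := hd1 w hw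
      exact ⟨y, hw, Sum.inr_le_inr_iff.1 h1, Sum.inr_le_inr_iff.1 h2⟩)
    refine ⟨Sum.inr x, ?_, ?_⟩
    · intro z hz
      obtain ⟨y, rfl⟩ := hd1 z hz
      exact Sum.inr_le_inr_iff.2 (hx.1 hz)
    · intro z hz
      have h1 := hz ha
      rcases z with z | z
      · exact absurd h1 Sum.not_inr_le_inl
      · exact Sum.inr_le_inr_iff.2 (hx.2 fun y hy => Sum.inr_le_inr_iff.1 (hz hy))

theorem sober_sum [TopologicalSpace Z] [TopologicalSpace W] [QuasiSober Z] [QuasiSober W] :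
    QuasiSober (Z ⊕ W) := by
  have e1 : QuasiSober (range (Sum.inl : Z → Z ⊕ W)) :=
    (IsOpenEmbedding.inl (X := Z) (Y := W)).isEmbedding.toHomeomorph.symm.isOpenEmbedding.quasiSober
  have e2 : QuasiSober (range (Sum.inr : W → Z ⊕ W)) :=
    (IsOpenEmbedding.inr (X := Z) (Y := W)).isEmbedding.toHomeomorph.symm.isOpenEmbedding.quasiSober
  have hS : ∀ s : ({range Sum.inl, range Sum.inr} : Set (Set (Z ⊕ W))), QuasiSober s := by
    rintro ⟨s, rfl | rfl⟩
    · exact e1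
    · exact e2
  refine quasiSober_of_open_cover {range Sum.inl, range Sum.inr} ?_ ?_
  · rintro ⟨s, rfl | rfl⟩
    · exact isOpen_range_inl
    · exact isOpen_range_inr
  · rw [sUnion_pair, range_inl_union_range_inr]
    rfl

/-- The sum of two well-filtered spaces satisfies the defining property. -/
theorem wf_sum [TopologicalSpace Z] [TopologicalSpace W] (h1 : WellFiltered Z)
    (h2 : WellFiltered W) (𝒦 : Set (Set (Z ⊕ W))) (hne : 𝒦.Nonempty)
    (hdir : DirectedOn (· ⊇ ·) 𝒦)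
    (hK : ∀ K ∈ 𝒦, IsCompact K ∧ ∃ 𝒰 : Set (Set (Z ⊕ W)), (∀ U ∈ 𝒰, IsOpen U) ∧ K = ⋂₀ 𝒰)
    (U : Set (Z ⊕ W)) (hU : IsOpen U) (hsub : ⋂₀ 𝒦 ⊆ U) : ∃ K ∈ 𝒦, K ⊆ U := by
  obtain ⟨_, ⟨K₁, hK₁, rfl⟩, h3⟩ := h1.2 ((fun K => Sum.inl ⁻¹' K) '' 𝒦) (hne.image _) (by
      rintro _ ⟨A, hA, rfl⟩ _ ⟨B, hB, rfl⟩
      obtain ⟨C, hC, hCA, hCB⟩ := hdir A hA B hB
      exact ⟨_, ⟨C, hC, rfl⟩, preimage_mono hCA, preimage_mono hCB⟩) (by
      rintro _ ⟨A, hA, rfl⟩
      obtain ⟨hc, 𝒰, h𝒰, rfl⟩ := hK A hA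
      refine ⟨IsClosedEmbedding.inl.isCompact_preimage hc, (fun V => Sum.inl ⁻¹' V) '' 𝒰, ?_, ?_⟩
      · rintro _ ⟨V, hV, rfl⟩
        exact (h𝒰 V hV).preimage continuous_inl
      · show Sum.inl ⁻¹' (⋂₀ 𝒰) = _
        rw [preimage_sInter, sInter_image]) (Sum.inl ⁻¹' U) (hU.preimage continuous_inl) (by
      intro z hz
      refine hsub ?_
      rw [mem_sInter] at hz ⊢
      exact fun K hKm => hz _ ⟨K, hKm, rfl⟩)
  obtain ⟨_, ⟨K₂, hK₂, rfl⟩, h4⟩ := h2.2 ((fun K => Sum.inr ⁻¹' K) '' 𝒦) (hne.image _) (by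
      rintro _ ⟨A, hA, rfl⟩ _ ⟨B, hB, rfl⟩
      obtain ⟨C, hC, hCA, hCB⟩ := hdir A hA B hB
      exact ⟨_, ⟨C, hC, rfl⟩, preimage_mono hCA, preimage_mono hCB⟩) (by
      rintro _ ⟨A, hA, rfl⟩
      obtain ⟨hc, 𝒰, h𝒰, rfl⟩ := hK A hA
      refine ⟨IsClosedEmbedding.inr.isCompact_preimage hc, (fun V => Sum.inr ⁻¹' V) '' 𝒰, ?_, ?_⟩
      · rintro _ ⟨V, hV, rfl⟩
        exact (h𝒰 V hV).preimage continuous_inr
      · show Sum.inr ⁻¹' (⋂₀ 𝒰) = _
        rw [preimage_sInter, sInter_image]) (Sum.inr ⁻¹' U) (hU.preimage continuous_inr) (by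
      intro z hz
      refine hsub ?_
      rw [mem_sInter] at hz ⊢
      exact fun K hKm => hz _ ⟨K, hKm, rfl⟩)
  obtain ⟨K₃, hK₃, h5, h6⟩ := hdir K₁ hK₁ K₂ hK₂
  refine ⟨K₃, hK₃, ?_⟩
  rintro (z | z) hz
  · exact h3 (h5 hz)
  · exact h4 (h6 hz)

/-- A product of sober spaces is sober. -/
theorem sober_prod [TopologicalSpace Z] [TopologicalSpace W] [QuasiSober Z] [QuasiSober W] :
    QuasiSober (Z × W) := by
  refine ⟨fun {S} hS hSc => ?_⟩
  have i1 : IsIrreducible (closure (Prod.fst '' S)) :=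
    (hS.image Prod.fst continuous_fst.continuousOn).closure
  have i2 : IsIrreducible (closure (Prod.snd '' S)) :=
    (hS.image Prod.snd continuous_snd.continuousOn).closure
  obtain ⟨x, hx⟩ := QuasiSober.sober i1 isClosed_closure
  obtain ⟨y, hy⟩ := QuasiSober.sober i2 isClosed_closure
  have hx' : closure {x} = closure (Prod.fst '' S) := hx
  have hy' : closure {y} = closure (Prod.snd '' S) := hy
  refine ⟨(x, y), ?_⟩
  show closure {(x, y)} = S
  rw [← singleton_prod_singleton, closure_prod_eq, hx', hy']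
  refine Subset.antisymm ?_ ?_
  · rintro ⟨a, b⟩ ⟨ha, hb⟩
    rw [← hSc.closure_eq, mem_closure_iff]
    intro O hO hab
    obtain ⟨A, B, hA, hB, haA, hbB, hAB⟩ := isOpen_prod_iff.1 hO a b hab
    obtain ⟨_, hpA, p, hp, rfl⟩ := mem_closure_iff.1 ha A hA haA
    obtain ⟨_, hqB, q, hq, rfl⟩ := mem_closure_iff.1 hb B hB hbB
    obtain ⟨r, hr, hr1, hr2⟩ := hS.2 _ _ (hA.preimage continuous_fst)
      (hB.preimage continuous_snd) ⟨p, hp, hpA⟩ ⟨q, hq, hqB⟩
    exact ⟨r, hAB ⟨hr1, hr2⟩, hr⟩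
  · intro p hp
    exact ⟨subset_closure ⟨p, hp, rfl⟩, subset_closure ⟨p, hp, rfl⟩⟩

/-- In a well-filtered space a minimal closed set meeting all members of a filtered family of
compact sets is the closure of a point. -/
theorem minimal_point {X : Type u} [TopologicalSpace X] (h : WellFiltered X) (𝒦 : Set (Set X))
    (hne : 𝒦.Nonempty) (hdir : DirectedOn (· ⊇ ·) 𝒦) (hK : ∀ K ∈ 𝒦, IsCompact K) (C : Set X)
    (hC : IsClosed C) (hm : ∀ K ∈ 𝒦, (K ∩ C).Nonempty)
    (hmin : ∀ D ⊆ C, IsClosed D → (∀ K ∈ 𝒦, (K ∩ D).Nonempty) → C ⊆ D) :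
    ∃ x, closure {x} = C := by
  have hsat : ∀ K : Set X, K ⊆ ⋂₀ {U | IsOpen U ∧ K ⊆ U} := fun K =>
    subset_sInter fun U hU => hU.2
  have key : ∃ x ∈ C, ∀ K ∈ 𝒦, x ∈ ⋂₀ {U | IsOpen U ∧ K ∩ C ⊆ U} := by
    by_contra hcon
    push Not at hcon
    obtain ⟨_, ⟨K, hKm, rfl⟩, hKC⟩ := h.2 ((fun K => ⋂₀ {U | IsOpen U ∧ K ∩ C ⊆ U}) '' 𝒦)
      (hne.image _) (by
        rintro _ ⟨A, hA, rfl⟩ _ ⟨B, hB, rfl⟩
        obtain ⟨D, hD, hDA, hDB⟩ := hdir A hA B hB
        refine ⟨_, ⟨D, hD, rfl⟩, ?_, ?_⟩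
        · refine subset_sInter fun U hU => sInter_subset_of_mem ?_
          exact ⟨hU.1, (inter_subset_inter_left C hDA).trans hU.2⟩
        · refine subset_sInter fun U hU => sInter_subset_of_mem ?_
          exact ⟨hU.1, (inter_subset_inter_left C hDB).trans hU.2⟩) (by
        rintro _ ⟨A, hA, rfl⟩
        refine ⟨?_, _, fun U hU => hU.1, rfl⟩
        refine isCompact_of_finite_subcover fun {κ} U hU hcov => ?_
        obtain ⟨t, ht⟩ := ((hK A hA).inter_right hC).elim_finite_subcover U hU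
          ((hsat _).trans hcov)
        refine ⟨t, ?_⟩
        exact sInter_subset_of_mem ⟨isOpen_biUnion fun i _ => hU i, ht⟩) Cᶜ hC.isOpen_compl (by
        intro x hx hxC
        obtain ⟨K, hKm, hxK⟩ := hcon x hxC
        exact hxK (mem_sInter.1 hx _ ⟨K, hKm, rfl⟩))
    obtain ⟨x, hx⟩ := hm K hKm
    exact hKC (hsat _ hx) hx.2
  obtain ⟨x, hxC, hx⟩ := key
  have hsub : closure {x} ⊆ C := hC.closure_subset_iff.2 (singleton_subset_iff.2 hxC)
  refine ⟨x, hsub.antisymm (hmin _ hsub isClosed_closure ?_)⟩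
  intro K hKm
  by_contra hemp
  have h1 : K ∩ C ⊆ (closure {x})ᶜ := fun y hy hyx => hemp ⟨y, hy.1, hyx⟩
  exact mem_sInter.1 (hx K hKm) _ ⟨isClosed_closure.isOpen_compl, h1⟩ (subset_closure rfl)

/-- A product of two well-filtered spaces is well-filtered. -/
theorem wf_prod [TopologicalSpace Z] [TopologicalSpace W] (h1 : WellFiltered Z)
    (h2 : WellFiltered W) (𝒦 : Set (Set (Z × W))) (hne : 𝒦.Nonempty)
    (hdir : DirectedOn (· ⊇ ·) 𝒦)
    (hK : ∀ K ∈ 𝒦, IsCompact K ∧ ∃ 𝒰 : Set (Set (Z × W)), (∀ U ∈ 𝒰, IsOpen U) ∧ K = ⋂₀ 𝒰)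
    (U : Set (Z × W)) (hU : IsOpen U) (hsub : ⋂₀ 𝒦 ⊆ U) : ∃ K ∈ 𝒦, K ⊆ U := by
  by_contra hcon
  push Not at hcon
  obtain ⟨C, hCU, hC, hCm, hmin⟩ := exists_minimal 𝒦 (fun K h => (hK K h).1) Uᶜ hU.isClosed_compl
    (by
      intro K hKm
      obtain ⟨x, hx, hxU⟩ := not_subset.1 (hcon K hKm)
      exact ⟨x, hx, hxU⟩)
  obtain ⟨x, hx⟩ : ∃ x, closure {x} = closure (Prod.fst '' C) := by
    refine minimal_point h1 ((fun K => Prod.fst '' (K ∩ C)) '' 𝒦) (hne.image _) ?_ ?_ _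
      isClosed_closure ?_ ?_
    · rintro _ ⟨A, hA, rfl⟩ _ ⟨B, hB, rfl⟩
      obtain ⟨D, hD, hDA, hDB⟩ := hdir A hA B hB
      exact ⟨_, ⟨D, hD, rfl⟩, image_mono (inter_subset_inter_left C hDA),
        image_mono (inter_subset_inter_left C hDB)⟩
    · rintro _ ⟨A, hA, rfl⟩
      exact ((hK A hA).1.inter_right hC).image continuous_fst
    · rintro _ ⟨A, hA, rfl⟩
      obtain ⟨p, hp⟩ := hCm A hA
      exact ⟨p.1, ⟨p, hp, rfl⟩, subset_closure ⟨p, hp.2, rfl⟩⟩
    · intro D hD hDc hDm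
      refine hDc.closure_subset_iff.2 ?_
      rintro _ ⟨p, hp, rfl⟩
      refine (hmin (C ∩ Prod.fst ⁻¹' D) inter_subset_left (hC.inter (hDc.preimage continuous_fst))
        ?_ hp).2
      intro K hKm
      obtain ⟨_, ⟨q, hq, rfl⟩, hqD⟩ := hDm _ ⟨K, hKm, rfl⟩
      exact ⟨q, hq.1, hq.2, hqD⟩
  obtain ⟨y, hy⟩ : ∃ y, closure {y} = closure (Prod.snd '' C) := by
    refine minimal_point h2 ((fun K => Prod.snd '' (K ∩ C)) '' 𝒦) (hne.image _) ?_ ?_ _
      isClosed_closure ?_ ?_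
    · rintro _ ⟨A, hA, rfl⟩ _ ⟨B, hB, rfl⟩
      obtain ⟨D, hD, hDA, hDB⟩ := hdir A hA B hB
      exact ⟨_, ⟨D, hD, rfl⟩, image_mono (inter_subset_inter_left C hDA),
        image_mono (inter_subset_inter_left C hDB)⟩
    · rintro _ ⟨A, hA, rfl⟩
      exact ((hK A hA).1.inter_right hC).image continuous_snd
    · rintro _ ⟨A, hA, rfl⟩
      obtain ⟨p, hp⟩ := hCm A hA
      exact ⟨p.2, ⟨p, hp, rfl⟩, subset_closure ⟨p, hp.2, rfl⟩⟩
    · intro D hD hDc hDm
      refine hDc.closure_subset_iff.2 ?_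
      rintro _ ⟨p, hp, rfl⟩
      refine (hmin (C ∩ Prod.snd ⁻¹' D) inter_subset_left (hC.inter (hDc.preimage continuous_snd))
        ?_ hp).2
      intro K hKm
      obtain ⟨_, ⟨q, hq, rfl⟩, hqD⟩ := hDm _ ⟨K, hKm, rfl⟩
      exact ⟨q, hq.1, hq.2, hqD⟩
  have hxy : (x, y) ∈ C := by
    rw [← hC.closure_eq, mem_closure_iff]
    intro O hO hab
    obtain ⟨A, B, hA, hB, haA, hbB, hAB⟩ := isOpen_prod_iff.1 hO x y hab
    have hx' : x ∈ closure (Prod.fst '' C) := by rw [← hx]; exact subset_closure rfl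
    have hy' : y ∈ closure (Prod.snd '' C) := by rw [← hy]; exact subset_closure rfl
    obtain ⟨_, hpA, p, hp, rfl⟩ := mem_closure_iff.1 hx' A hA haA
    obtain ⟨_, hqB, q, hq, rfl⟩ := mem_closure_iff.1 hy' B hB hbB
    by_contra hemp
    have g1 : ∃ K ∈ 𝒦, ¬ (K ∩ (C ∩ Prod.fst ⁻¹' Aᶜ)).Nonempty := by
      by_contra h
      push Not at h
      exact (hmin _ inter_subset_left (hC.inter (hA.isClosed_compl.preimage continuous_fst)) h hp).2
        hpA
    have g2 : ∃ K ∈ 𝒦, ¬ (K ∩ (C ∩ Prod.snd ⁻¹' Bᶜ)).Nonempty := by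
      by_contra h
      push Not at h
      exact (hmin _ inter_subset_left (hC.inter (hB.isClosed_compl.preimage continuous_snd)) h hq).2
        hqB
    obtain ⟨K1, hK1, g1⟩ := g1
    obtain ⟨K2, hK2, g2⟩ := g2
    obtain ⟨K3, hK3, h31, h32⟩ := hdir K1 hK1 K2 hK2
    obtain ⟨z, hz, hzC⟩ := hCm K3 hK3
    have z1 : z.1 ∈ A := by
      by_contra hz1
      exact g1 ⟨z, h31 hz, hzC, hz1⟩
    have z2 : z.2 ∈ B := by
      by_contra hz2
      exact g2 ⟨z, h32 hz, hzC, hz2⟩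
    exact hemp ⟨z, hAB ⟨z1, z2⟩, hzC⟩
  have hCl : C ⊆ closure {(x, y)} := by
    rw [← singleton_prod_singleton, closure_prod_eq, hx, hy]
    intro p hp
    exact ⟨subset_closure ⟨p, hp, rfl⟩, subset_closure ⟨p, hp, rfl⟩⟩
  refine hCU hxy (hsub (mem_sInter.2 fun K hKm => ?_))
  obtain ⟨z, hz, hzC⟩ := hCm K hKm
  obtain ⟨-, 𝒰, h𝒰, rfl⟩ := hK K hKm
  rw [mem_sInter] at hz ⊢
  intro V hV
  obtain ⟨w, hwV, rfl⟩ := mem_closure_iff.1 (hCl hzC) V (h𝒰 V hV) (hz V hV)
  exact hwV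

theorem compat_prod [PartialOrder Z] [PartialOrder W] [t : TopologicalSpace Z]
    [s : TopologicalSpace W] (ht : Compat t) (hs : Compat s) :
    Compat (inferInstance : TopologicalSpace (Z × W)) := by
  rintro ⟨x, y⟩
  rw [← singleton_prod_singleton, closure_prod_eq, ht x, hs y, Iic_prod_Iic]

end sum

section scott

variable {Z : Type u} [PartialOrder Z] {Q : Type v} [PartialOrder Q]

/-- the inclusion of a slice -/
def ji (Z : Type u) [PartialOrder Z] (q : Q) (x : WithScott JT) : WithScott ((Z ⊕ JT) × Q) :=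
  (Sum.inr x, q)

theorem cont_ji (q : Q) : Continuous (ji Z q) := by
  refine (IsScott.scottContinuousOn_iff_continuous (D := univ) (fun _ _ _ => trivial)).1 ?_
  intro d _ hne _ a ha
  constructor
  · rintro _ ⟨x, hx, rfl⟩
    exact ⟨Sum.inr_le_inr_iff.2 (ha.1 hx), le_refl _⟩
  · rintro ⟨z, r⟩ hz
    obtain ⟨x₀, hx₀⟩ := hne
    have h0 : (Sum.inr x₀ : Z ⊕ JT) ≤ z := (hz ⟨x₀, hx₀, rfl⟩).1
    rcases z with z | z
    · exact absurd h0 Sum.not_inr_le_inl
    · refine ⟨Sum.inr_le_inr_iff.2 (ha.2 fun x hx => ?_), (hz ⟨x₀, hx₀, rfl⟩).2⟩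
      have h1 : (Sum.inr x : Z ⊕ JT) ≤ Sum.inr z := (hz ⟨x, hx, rfl⟩).1
      exact Sum.inr_le_inr_iff.1 h1

/-- the open set -/
def top' (Z : Type u) [PartialOrder Z] (Q : Type v) [PartialOrder Q] :
    Set (WithScott ((Z ⊕ JT) × Q)) := {z | z.1 = Sum.inr JT.gr}

theorem isOpen_top' : IsOpen (top' Z Q) := by
  rw [IsScott.isOpen_iff_isUpperSet_and_dirSupInaccOn (D := univ), dirSupInaccOn_univ]
  constructor
  · rintro ⟨a, p⟩ ⟨b, q⟩ hab ha
    have ha' : a = Sum.inr JT.gr := ha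
    subst ha'
    have h1 : (Sum.inr JT.gr : Z ⊕ JT) ≤ b := hab.1
    rcases b with b | b
    · exact absurd h1 Sum.not_inr_le_inl
    · show (Sum.inr b : Z ⊕ JT) = _
      rw [JT.gr_le (Sum.inr_le_inr_iff.1 h1)]
  · rintro d hne hdir ⟨a, q⟩ ha haU
    have haU' : a = Sum.inr JT.gr := haU
    subst haU'
    have h1 : ∀ z ∈ d, ∃ x, z.1 = Sum.inr x := by
      intro z hz
      have h2 : z.1 ≤ (Sum.inr JT.gr : Z ⊕ JT) := (ha.1 hz).1
      rcases h3 : z.1 with y | y
      · rw [h3] at h2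
        exact absurd h2 Sum.not_inl_le_inr
      · exact ⟨y, rfl⟩
    let e : Set (WithScott JT) := {x | ∃ z ∈ d, z.1 = Sum.inr x}
    have hgr := (JT.so_iff.1 JT.so_gr).2
    obtain ⟨z0, hz0⟩ := hne
    obtain ⟨x0, hx0⟩ := h1 z0 hz0
    have hg : IsLUB (e : Set JT) JT.gr := by
      refine ⟨fun x _ => JT.le_gr x, ?_⟩
      intro y hy
      have h4 : ((Sum.inr JT.gr, q) : (Z ⊕ JT) × Q) ≤ (Sum.inr y, q) := by
        refine ha.2 ?_
        intro z hz
        obtain ⟨x, hx⟩ := h1 z hz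
        refine ⟨?_, (ha.1 hz).2⟩
        rw [hx]
        exact Sum.inr_le_inr_iff.2 (hy ⟨z, hz, hx⟩)
      exact Sum.inr_le_inr_iff.1 h4.1
    obtain ⟨x, ⟨z, hz, hzx⟩, hx⟩ := hgr (d := e) ⟨x0, z0, hz0, hx0⟩ (by
      rintro x ⟨z, hz, hzx⟩ y ⟨w, hw, hwy⟩
      obtain ⟨s, hs, h4, h5⟩ := hdir z hz w hw
      obtain ⟨r, hr⟩ := h1 s hs
      have h6 : z.1 ≤ s.1 := h4.1
      have h7 : w.1 ≤ s.1 := h5.1
      rw [hzx, hr] at h6
      rw [hwy, hr] at h7
      exact ⟨r, ⟨s, hs, hr⟩, Sum.inr_le_inr_iff.1 h6, Sum.inr_le_inr_iff.1 h7⟩) hg rfl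
    refine ⟨z, hz, ?_⟩
    have hx' : x = JT.gr := hx
    rw [hx'] at hzx
    exact hzx

theorem not_omega [Nonempty Q] : ¬ OmegaWF (WithScott ((Z ⊕ JT) × Q)) := by
  intro h
  obtain ⟨q⟩ := ‹Nonempty Q›
  have hupper : ∀ U : Set (WithScott ((Z ⊕ JT) × Q)), IsOpen U → IsUpperSet U := fun U hU =>
    IsScott.isUpperSet_of_isOpen (D := univ) hU
  obtain ⟨n, hK⟩ := h (fun n => {z | ∃ x ∈ JT.tl n, ji Z q x ≤ z}) (by
      rintro n m hnm z ⟨x, hx, hxz⟩
      refine ⟨x, ?_, hxz⟩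
      rcases hx with rfl | ⟨l, hl, rfl⟩
      · exact Or.inl rfl
      · exact Or.inr ⟨l, hnm.trans hl, rfl⟩) (by
      intro n
      refine ⟨?_, ?_⟩
      · refine isCompact_of_finite_subcover fun {κ} U hU hcov => ?_
        obtain ⟨t, ht⟩ := ((JT.tl_compact n).image (cont_ji (Z := Z) q)).elim_finite_subcover U hU
          (by
            rintro _ ⟨x, hx, rfl⟩
            exact hcov ⟨x, hx, le_refl _⟩)
        refine ⟨t, ?_⟩
        rintro z ⟨x, hx, hxz⟩
        have h3 := ht ⟨x, hx, rfl⟩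
        rw [mem_iUnion₂] at h3 ⊢
        obtain ⟨k, hk, hak⟩ := h3
        exact ⟨k, hk, hupper _ (hU k) hxz hak⟩
      · refine ⟨{U | ∃ y : WithScott ((Z ⊕ JT) × Q), (¬ ∃ x ∈ JT.tl n, ji Z q x ≤ y) ∧
          U = (Iic y)ᶜ}, ?_, ?_⟩
        · rintro _ ⟨y, -, rfl⟩
          exact (IsScott.isClosed_iff_isLowerSet_and_dirSupClosed.2
            ⟨isLowerSet_Iic _, dirSupClosed_Iic _⟩ : IsClosed (Iic y)).isOpen_compl
        · ext z
          rw [mem_sInter]
          constructor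
          · rintro ⟨x, hx, hxz⟩ _ ⟨y, hy, rfl⟩ hzy
            exact hy ⟨x, hx, le_trans hxz hzy⟩
          · intro hz
            by_contra hzK
            exact hz _ ⟨z, hzK, rfl⟩ (le_refl z))
    _ (isOpen_top' (Z := Z) (Q := Q)) (by
      intro z hz
      rw [mem_iInter] at hz
      show z.1 = Sum.inr JT.gr
      obtain ⟨x, hx, hxz⟩ := hz 0
      have h1 : (Sum.inr x : Z ⊕ JT) ≤ z.1 := hxz.1
      rcases h2 : z.1 with y | y
      · rw [h2] at h1
        exact absurd h1 Sum.not_inr_le_inl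
      · rw [h2] at h1
        have h1' : x ≤ y := Sum.inr_le_inr_iff.1 h1
        rcases hx with rfl | ⟨m, -, rfl⟩
        · rw [JT.gr_le h1']
        · rcases y with ⟨j, k⟩ | m' | _
          · exact absurd h1' JT.lim_pt
          · obtain ⟨x, hx, hxz⟩ := hz (m' + 1)
            have h1 : (Sum.inr x : Z ⊕ JT) ≤ z.1 := hxz.1
            rw [h2] at h1
            have h1' : x ≤ JT.lim m' := Sum.inr_le_inr_iff.1 h1
            rcases hx with rfl | ⟨m, hm, rfl⟩
            · exact absurd h1' JT.gr_lim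
            · have := JT.lim_lim.1 h1'
              omega
          · rfl)
  have h1 : ji Z q (JT.lim n) ∈ top' Z Q := hK ⟨JT.lim n, Or.inr ⟨n, le_refl n, rfl⟩, le_refl _⟩
  have h2 : (Sum.inr (JT.lim n) : Z ⊕ JT) = Sum.inr JT.gr := h1
  exact absurd (Sum.inr_injective h2) (by simp)

end scott

/-- **Main result.** Let `Z` be a dcpo with a compatible well-filtered topology `t`. There is a
dcpo `P` with a compatible well-filtered topology `s`, of which `(Z, t)` is a component (order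
isomorphic to an upper and lower, open and closed subset), such that for no nonempty poset `Q` the
Scott topology of `P × Q` is `ω`-well-filtered (so it is not well-filtered), while `P × Q` has a
compatible well-filtered topology for every poset `Q` which has one. If `t` is sober then `s` is
sober, and `P × Q` has a compatible sober topology for every poset `Q` which has one. -/
theorem result : ∀ (Z : Type u) [PartialOrder Z], IsDcpo Z → ∀ t : TopologicalSpace Z,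
    Compat t → @WellFiltered Z t →
    ∃ (P : Type u) (_ : PartialOrder P), IsDcpo P ∧
    ∃ s : TopologicalSpace P, Compat s ∧ @WellFiltered P s ∧
      (∃ i : Z ↪o P, IsUpperSet (range i) ∧ IsLowerSet (range i) ∧
        @IsOpenEmbedding Z P t s i ∧ @IsClosedEmbedding Z P t s i) ∧
      (∀ (Q : Type v) [PartialOrder Q] [Nonempty Q],
        ¬ OmegaWF (WithScott (P × Q)) ∧ ¬ WellFiltered (WithScott (P × Q))) ∧
      (∀ (Q : Type v) [PartialOrder Q] (r : TopologicalSpace Q), Compat r → @WellFiltered Q r →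
        ∃ p : TopologicalSpace (P × Q), Compat p ∧ @WellFiltered (P × Q) p) ∧
      (@QuasiSober Z t → @QuasiSober P s ∧
        ∀ (Q : Type v) [PartialOrder Q] (r : TopologicalSpace Q), Compat r → @QuasiSober Q r →
          ∃ p : TopologicalSpace (P × Q), Compat p ∧ @QuasiSober (P × Q) p ∧
            @WellFiltered (P × Q) p) := by
  intro Z _ hZ t ht hwf
  let : TopologicalSpace JT := JT.top
  have hJ : QuasiSober JT := JT.sober
  have hJc : Compat JT.top := JT.closure_eq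
  have hJ0 : T0Space JT := JT.t0
  have hJw : WellFiltered JT := wellFiltered_of_sober
  have hc : Compat (inferInstance : TopologicalSpace (Z ⊕ JT)) := compat_sum ht hJc
  refine ⟨Z ⊕ JT, inferInstance, dcpo_sum hZ JT.dcpo, inferInstance, hc,
    ⟨compat_t0 hc, wf_sum hwf hJw⟩, ⟨⟨⟨Sum.inl, Sum.inl_injective⟩, Sum.inl_le_inl_iff⟩,
      ?_, ?_, IsOpenEmbedding.inl, IsClosedEmbedding.inl⟩, ?_, ?_, ?_⟩
  · rintro _ (b | b) hab ⟨a, rfl⟩
    · exact ⟨b, rfl⟩
    · exact absurd hab Sum.not_inl_le_inr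
  · rintro _ (b | b) hab ⟨a, rfl⟩
    · exact ⟨b, rfl⟩
    · exact absurd hab Sum.not_inr_le_inl
  · intro Q _ _
    exact ⟨not_omega, fun h => not_omega (wf_omega h)⟩
  · intro Q _ r hr hQ
    have hcp : Compat (inferInstance : TopologicalSpace ((Z ⊕ JT) × Q)) := compat_prod hc hr
    exact ⟨inferInstance, hcp, compat_t0 hcp, wf_prod ⟨compat_t0 hc, wf_sum hwf hJw⟩ hQ⟩
  · intro hs
    have hPs : QuasiSober (Z ⊕ JT) := sober_sum
    refine ⟨hPs, ?_⟩
    intro Q _ r hr hQ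
    have hcp : Compat (inferInstance : TopologicalSpace ((Z ⊕ JT) × Q)) := compat_prod hc hr
    have hps : QuasiSober ((Z ⊕ JT) × Q) := sober_prod
    have h0 : T0Space ((Z ⊕ JT) × Q) := compat_t0 hcp
    exact ⟨inferInstance, hcp, hps, wellFiltered_of_sober⟩

end Pool.Agent.Results.MP_70096d_gt.OmegaWellFiltered
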